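import Mathlib

set_option autoImplicit false

namespace Pool.Agent.Results.MP_2d361f_co.NotSymm

def E {α : Type} (M : Matroid α) (X A B : Set α) : Set (Set α) :=
  {Y | Y ⊆ B ∧ M.IsBase ((A \ X) ∪ Y) ∧ M.IsBase ((B \ Y) ∪ X)}

def Step {α : Type} {m : ℕ} (M : Matroid α) (B B' : Fin m → Set α) : Prop :=
  ∃ (i j : Fin m) (X Y : Set α), i < j ∧ X ⊆ B i ∧ E M X (B i) (B j) = {Y} ∧
    B' = Function.update (Function.update B i ((B i \ X) ∪ Y)) j ((B j \ Y) ∪ X)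

def base (s : Finset (Fin 8)) : Prop := s.card = 4 ∧ s ∉ ([{0, 2, 6, 7}, {0, 4, 5, 6}, {1, 4, 5, 6},
  {2, 4, 5, 6}, {3, 4, 5, 6}, {3, 4, 5, 7}, {3, 4, 6, 7}, {3, 5, 6, 7}, {4, 5, 6, 7}] :
    List (Finset (Fin 8)))

instance : DecidablePred base := fun _ => inferInstanceAs (Decidable (_ ∧ _))

lemma exch : ∀ s : Finset (Fin 8), base s → ∀ t, base t → ∀ a ∈ s \ t, ∃ b ∈ t \ s,
    base (insert b (s \ {a})) := by decide +kernel

noncomputable def M : Matroid (Fin 8) := Matroid.ofExistsFiniteIsBase Set.univ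
  (fun B => ∃ s : Finset (Fin 8), base s ∧ B = s) ⟨_, ⟨{0, 1, 2, 3}, by decide, rfl⟩, Set.toFinite _⟩
  (by
    rintro _ _ ⟨s, hs, rfl⟩ ⟨t, ht, rfl⟩ a ha
    obtain ⟨b, h1, h2⟩ := exch s hs t ht a (by simpa using ha)
    exact ⟨b, by simpa using h1, _, h2, by simp⟩)
  fun _ _ => Set.subset_univ _

lemma isB (s : Finset (Fin 8)) : M.IsBase s ↔ base s :=
  ⟨fun ⟨_, h, e⟩ => Finset.coe_injective e ▸ h, fun h => ⟨s, h, rfl⟩⟩

lemma memE (x a b y : Finset (Fin 8)) : (y : Set (Fin 8)) ∈ E M x a b ↔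
    y ⊆ b ∧ base (a \ x ∪ y) ∧ base (b \ y ∪ x) := by
  simp only [E, Set.mem_ofPred_eq, ← isB, Finset.coe_union, Finset.coe_sdiff, Finset.coe_subset]

def P : Finset (Fin 8) := {1, 4, 5, 7}
def Q : Finset (Fin 8) := {0, 2, 3, 6}

lemma clos : ∀ p ∈ [(P, Q), (Q, P)], ∀ x ∈ p.1.powerset, ∀ y ∈ p.2.powerset,
    (∀ z ∈ p.2.powerset, base (p.1 \ x ∪ z) ∧ base (p.2 \ z ∪ x) → z = y) →
    base (p.1 \ x ∪ y) → base (p.2 \ y ∪ x) →
    (p.1 \ x ∪ y, p.2 \ y ∪ x) ∈ [(P, Q), (Q, P)] := by decide +kernel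

theorem result : ∃ (α : Type) (_ : Finite α) (M : Matroid α) (m : ℕ) (B B' : Fin m → Set α),
    (∀ i, M.IsBase (B i)) ∧ (∀ i, M.IsBase (B' i)) ∧ Relation.ReflTransGen (Step M) B B' ∧
      ¬ Relation.ReflTransGen (Step M) B' B := by
  let A : Finset (Fin 8) := {0, 2, 4, 5}
  let B : Finset (Fin 8) := {1, 3, 6, 7}
  refine ⟨Fin 8, inferInstance, M, 2, ![A, B], ![P, Q], ?_, ?_, .single ⟨0, 1,
    ({0, 2} : Finset (Fin 8)), ({1, 7} : Finset (Fin 8)), by decide, ?_, ?_, ?_⟩, fun h => ?_⟩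
  · simp only [Fin.forall_fin_two, Matrix.cons_val_zero, Matrix.cons_val_one, isB]; decide
  · simp only [Fin.forall_fin_two, Matrix.cons_val_zero, Matrix.cons_val_one, isB]; decide
  · exact Finset.coe_subset.mpr (by decide)
  · ext Y
    lift Y to Finset (Fin 8) using Y.toFinite
    simp only [Matrix.cons_val_zero, Matrix.cons_val_one, memE, Set.mem_singleton_iff,
      Finset.coe_inj]
    revert Y; decide +kernel
  · funext i
    fin_cases i <;> simp [← Finset.coe_union, ← Finset.coe_sdiff, -Finset.coe_insert] <;> decide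
  have : ∀ C, Relation.ReflTransGen (Step M) ![(P : Set (Fin 8)), Q] C →
      ∃ p ∈ [(P, Q), (Q, P)], C = ![(p.1 : Set (Fin 8)), p.2] := by
    intro C hC
    induction hC with
    | refl => exact ⟨(P, Q), by simp, rfl⟩
    | tail _ h ih =>
      obtain ⟨p, hp, rfl⟩ := ih
      obtain ⟨i, j, X, Y, hij, h1, h2, rfl⟩ := h
      obtain ⟨rfl, rfl⟩ : i = 0 ∧ j = 1 := (by decide : ∀ i j : Fin 2, i < j → i = 0 ∧ j = 1) i j hij
      lift X to Finset (Fin 8) using X.toFinite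
      lift Y to Finset (Fin 8) using Y.toFinite
      simp only [Matrix.cons_val_zero, Matrix.cons_val_one, Finset.coe_subset] at h1 h2 ⊢
      have h3 := (memE _ _ _ _).mp (h2.ge rfl)
      refine ⟨_, clos p hp X (by simpa using h1) Y (by simpa using h3.1) (fun z hz h4 =>
        Finset.coe_injective (h2.le ((memE _ _ _ _).mpr ⟨by simpa using hz, h4⟩))) h3.2.1 h3.2.2, ?_⟩
      funext i
      fin_cases i <;> simp
  obtain ⟨p, hp, e⟩ := this _ h
  have : A = p.1 := Finset.coe_injective (congrFun e 0)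
  simp only [List.mem_cons, List.not_mem_nil, or_false] at hp
  rcases hp with rfl | rfl <;> revert this <;> decide

end Pool.Agent.Results.MP_2d361f_co.NotSymm
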